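import Pool.Agent.W170.MV.Final

set_option autoImplicit false

/-!
# Large values of Dirichlet polynomials in rich intervals

Let `|D(it)| ≥ V` on the 1-separated set `S ⊂ [0,T]` and let `H ≥ √T`. The number of the points
of `S` which lie in intervals `[kH, (k+1)H)` with at least `r` points of `S` is at most
`C (1 + log N)³ N² / V²`, as soon as `r V² ≥ C (1 + log N)³ N (H + √(N H))`.
-/

namespace Pool.Agent.Results.MP_a93a41_nt.RichIntervals

open Finset Pool.Agent.W170.MV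

theorem norm_eq (N : ℕ) (a : ℕ → ℂ) (t : ℝ) :
    ‖∑ n ∈ Finset.Icc 1 N, a n * (n : ℂ) ^ (-((t : ℂ) * Complex.I))‖ =
      ‖∑ n ∈ Icc 1 N, a n * Complex.exp (-(Complex.I * (t * Real.log n : ℝ)))‖ := by
  congr 1
  apply sum_congr rfl
  intro n hn
  have hn1 : 1 ≤ n := (mem_Icc.1 hn).1
  have hn0 : (n : ℂ) ≠ 0 := by exact_mod_cast (by omega : n ≠ 0)
  rw [Complex.cpow_def_of_ne_zero hn0, ← Complex.natCast_log]
  congr 2
  push_cast
  ring

theorem result : ∃ C : ℝ, 0 < C ∧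
    ∀ (N r : ℕ) (T H V : ℝ) (a : ℕ → ℂ) (S : Finset ℝ),
      1 ≤ N → 1 ≤ H → T ≤ H ^ 2 → 0 < V →
      (∀ n, ‖a n‖ ≤ 1) →
      (∀ t ∈ S, 0 ≤ t ∧ t ≤ T ∧
        V ≤ ‖∑ n ∈ Finset.Icc 1 N, a n * (n : ℂ) ^ (-((t : ℂ) * Complex.I))‖) →
      (∀ t ∈ S, ∀ u ∈ S, t ≠ u → 1 ≤ |t - u|) →
      C * (1 + Real.log N) ^ 3 * N * (H + Real.sqrt (N * H)) ≤ r * V ^ 2 →
      ((S.filter (fun t => r ≤ (S.filter (fun u => ⌊u / H⌋₊ = ⌊t / H⌋₊)).card)).card : ℝ) ≤
        C * (1 + Real.log N) ^ 3 * N ^ 2 / V ^ 2 := by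
  classical
  refine ⟨2 * (84 * C1), by linarith [C1_pos], ?_⟩
  intro N r T H V a S hN hH hT hV ha hS hsep hr
  set F : ℝ → ℝ := fun t => ‖∑ n ∈ Finset.Icc 1 N, a n * (n : ℂ) ^ (-((t : ℂ) * Complex.I))‖
    with hF
  have h := rich_points (H := H) (V := V)
    (K := 84 * C1 * (1 + Real.log N) ^ 3 * N * N)
    (M := 84 * C1 * (1 + Real.log N) ^ 3 * N * (H + Real.sqrt (N * H))) hV S F
    (fun t ht => (hS t ht).2.2) r (by
      intro S' hS'
      have h := clustered_neg hH N hN a ha S'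
        (fun t ht => ⟨(hS t (hS' ht)).1, (hS t (hS' ht)).2.1.trans hT⟩)
        (fun t ht u hu => hsep t (hS' ht) u (hS' hu))
      calc ∑ t ∈ S', F t ^ 2
          = ∑ t ∈ S', ‖∑ n ∈ Icc 1 N,
              a n * Complex.exp (-(Complex.I * (t * Real.log n : ℝ)))‖ ^ 2 := by
            apply sum_congr rfl
            intro t _
            rw [hF]
            simp only
            rw [norm_eq]
        _ ≤ _ := h
        _ = _ := by ring) (by
      refine le_trans (le_of_eq ?_) hr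
      ring)
  refine h.trans (le_of_eq ?_)
  ring

end Pool.Agent.Results.MP_a93a41_nt.RichIntervals
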